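import Mathlib
import Pool.Agent.Zk44.SC.Joint

/-!
# Counting with bounds which are polynomial in the number of coordinates
-/

set_option autoImplicit false

namespace Pool.Agent.Zk44.GP

open MvPolynomial
open Pool.Agent.R351
open Pool.Agent.Zk44.GE.Ode

section Diff

variable {κ C : Type} [Field κ] [Field C] [Algebra κ C]

/-- The derivative of a polynomial in the first jets of a solution of `F`, times the separant. -/
noncomputable def EE (Δ : Derivation κ C C) (n : ℕ) (F P : MvPolynomial ℕ C) : MvPolynomial ℕ C :=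
  pderiv n F * rem Δ n P 0 - pderiv n P * rem Δ n F 0

theorem EE_supported (Δ : Derivation κ C C) {n : ℕ} {F P : MvPolynomial ℕ C}
    (hF : F ∈ supported C {i : ℕ | i < n + 1}) (hP : P ∈ supported C {i : ℕ | i < n + 1}) :
    EE Δ n F P ∈ supported C {i : ℕ | i < n + 1} :=
  Subalgebra.sub_mem _ (Subalgebra.mul_mem _ (pderiv_supported n hF) (rem_supported Δ hP 0))
    (Subalgebra.mul_mem _ (pderiv_supported n hP) (rem_supported Δ hF 0))

theorem pderiv_deg {i d : ℕ} {p : MvPolynomial ℕ C} (h : p.totalDegree ≤ d) :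
    (pderiv i p).totalDegree ≤ d := by
  by_cases h0 : pderiv i p = 0
  · rw [h0, totalDegree_zero]
    exact Nat.zero_le _
  · have := pderiv_totalDegree i p h0
    omega

theorem EE_totalDegree (Δ : Derivation κ C C) {n d T : ℕ} {F P : MvPolynomial ℕ C}
    (hF : F.totalDegree ≤ d) (hP : P.totalDegree ≤ T) :
    (EE Δ n F P).totalDegree ≤ T + d + 1 := by
  refine (totalDegree_sub _ _).trans (max_le ?_ ?_)
  · refine (totalDegree_mul _ _).trans ?_
    have h1 := pderiv_deg (i := n) hF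
    have h2 := rem_totalDegree Δ (n := n) hP 0
    omega
  · refine (totalDegree_mul _ _).trans ?_
    have h1 := pderiv_deg (i := n) hP
    have h2 := rem_totalDegree Δ (n := n) hF 0
    omega

theorem ev_EE (Δ : Derivation κ C C) {n : ℕ} {F P : MvPolynomial ℕ C}
    (hF : F ∈ supported C {i : ℕ | i < n + 1}) (hP : P ∈ supported C {i : ℕ | i < n + 1}) {y : C}
    (hy : ev Δ y F = 0) :
    ev Δ y (EE Δ n F P) = ev Δ y (pderiv n F) * Δ (ev Δ y P) := by
  have h1 := ev_rem Δ hF y 0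
  have h2 := ev_rem Δ hP y 0
  rw [hy, dit_map_zero] at h1
  rw [dit_succ, dit_zero] at h2
  unfold EE
  rw [map_sub, map_mul, map_mul, h2]
  linear_combination (ev Δ y (pderiv n P)) * h1

theorem mul_der_pow (Δ : Derivation κ C C) (s : C) (k : ℕ) :
    s * Δ (s ^ k) = k * s ^ k * Δ s := by
  rw [Derivation.leibniz_pow]
  rcases Nat.eq_zero_or_pos k with rfl | hk
  · simp
  · obtain ⟨m, rfl⟩ : ∃ m, k = m + 1 := ⟨k - 1, by omega⟩
    rw [Nat.add_sub_cancel, nsmul_eq_mul, smul_eq_mul, pow_succ]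
    ring

/-- **The jets of a solution of a differential equation, with linear bounds.** -/
theorem jets_lin (Δ : Derivation κ C C) {n d : ℕ} {F : MvPolynomial ℕ C}
    (hF : F ∈ supported C {i : ℕ | i < n + 1}) (hd : F.totalDegree ≤ d) (j : ℕ) :
    ∃ P : MvPolynomial ℕ C, P ∈ supported C {i : ℕ | i < n + 1} ∧
      P.totalDegree ≤ 1 + j * (2 * d + 1) ∧
      ∀ y, ev Δ y F = 0 → ev Δ y P = ev Δ y (pderiv n F) ^ (2 * j) * dit Δ (n + j) y := by
  induction j with
  | zero =>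
    refine ⟨X n, X_mem_supported.2 (Nat.lt_succ_self n), (totalDegree_X n).le.trans (by omega),
      fun y _ => ?_⟩
    rw [Nat.mul_zero, pow_zero, one_mul]
    exact eval_X _
  | succ j ih =>
    obtain ⟨P, hP, hPd, hPe⟩ := ih
    set S := pderiv n F with hS
    have hSs : S ∈ supported C {i : ℕ | i < n + 1} := pderiv_supported n hF
    have hSd : S.totalDegree ≤ d := pderiv_deg hd
    refine ⟨S * EE Δ n F P - MvPolynomial.C ((2 * j : ℕ) : C) * (P * EE Δ n F S), ?_, ?_, ?_⟩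
    · exact Subalgebra.sub_mem _ (Subalgebra.mul_mem _ hSs (EE_supported Δ hF hP))
        (Subalgebra.mul_mem _ (Subalgebra.algebraMap_mem _ _)
          (Subalgebra.mul_mem _ hP (EE_supported Δ hF hSs)))
    · refine (totalDegree_sub _ _).trans (max_le ?_ ?_)
      · refine (totalDegree_mul _ _).trans ?_
        have h1 := EE_totalDegree Δ (n := n) hd hPd
        rw [Nat.succ_mul]
        omega
      · refine (totalDegree_mul _ _).trans ?_
        rw [totalDegree_C, Nat.zero_add]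
        refine (totalDegree_mul _ _).trans ?_
        have h1 := EE_totalDegree Δ (n := n) hd hSd
        rw [Nat.succ_mul]
        omega
    · intro y hy
      rw [map_sub, map_mul, map_mul, map_mul, ev_EE Δ hF hP hy, ev_EE Δ hF hSs hy, hPe y hy]
      have h1 : ev Δ y (MvPolynomial.C ((2 * j : ℕ) : C)) = ((2 * j : ℕ) : C) := eval_C _
      have h2 : dit Δ (n + (j + 1)) y = Δ (dit Δ (n + j) y) := by
        rw [← dit_succ]
        rfl
      have h3 := mul_der_pow Δ (ev Δ y S) (2 * j)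
      rw [h1, h2, Derivation.leibniz, smul_eq_mul, smul_eq_mul]
      have h4 : ev Δ y S ^ (2 * (j + 1)) = ev Δ y S * ev Δ y S * ev Δ y S ^ (2 * j) := by
        rw [show 2 * (j + 1) = 2 * j + 2 by ring, pow_add]
        ring
      rw [h4]
      linear_combination (ev Δ y S * dit Δ (n + j) y) * h3

theorem jets_InP' {N : ℕ} (Δ : Derivation κ C C) (lam : Fin N → C) (z : C)
    (B : Finset (Fin N → κ)) {n d : ℕ} {F : MvPolynomial ℕ C}
    (hF : F ∈ supported C {i : ℕ | i < n + 1}) (hd : F.totalDegree ≤ d)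
    (hB : ∀ b ∈ B, ev Δ (cb lam z b) F = 0) (m : ℕ) :
    InP C (vj Δ lam z B) (n + 1) ((5 * d + 2) * (m + 1)) (aeval (vj Δ lam z B) (pderiv n F)) ∧
    ∀ i < m, InP C (vj Δ lam z B) (n + 1) ((5 * d + 2) * (m + 1))
      (aeval (vj Δ lam z B) (pderiv n F) ^ (2 * m) * vj Δ lam z B i) := by
  set v := vj Δ lam z B with hv
  set S := aeval v (pderiv n F) with hS
  have hSP : InP C v (n + 1) d S := ⟨_, pderiv_supported n hF, pderiv_deg hd, rfl⟩
  refine ⟨hSP.mono le_rfl (by nlinarith [Nat.zero_le (d * m)]), fun i hi => ?_⟩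
  rcases Nat.lt_or_ge i (n + 1) with hin | hin
  · refine ((hSP.pow (2 * m)).mul (InP.var hin)).mono le_rfl ?_
    nlinarith [Nat.zero_le (d * m)]
  · obtain ⟨j, rfl⟩ : ∃ j, i = n + j := ⟨i - n, by omega⟩
    obtain ⟨P, hP, hPd, hPe⟩ := jets_lin Δ hF hd j
    obtain ⟨k, rfl⟩ : ∃ k, m = j + k := ⟨m - j, by omega⟩
    have h1 : S ^ (2 * (j + k)) * v (n + j) = S ^ (2 * k) * aeval v P := by
      funext b
      have h2 := hPe (cb lam z b.1) (hB b.1 b.2)
      rw [Pi.mul_apply, Pi.mul_apply, Pi.pow_apply, Pi.pow_apply, hS, hv, aeval_vj, aeval_vj, h2]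
      have h3 : vj Δ lam z B (n + j) b = dit Δ (n + j) (cb lam z b.1) := rfl
      rw [h3, Nat.mul_add, pow_add]
      ring
    rw [h1]
    refine ((hSP.pow (2 * k)).mul ⟨P, hP, hPd, rfl⟩).mono le_rfl ?_
    nlinarith [Nat.zero_le (d * j), Nat.zero_le (d * k)]

end Diff

section Single

/-- **The points at which the separant does not vanish.** -/
theorem step_count' (n d : ℕ) : ∃ c : ℕ, ∀ (N : ℕ) (κ C : Type) [Field κ] [Field C] [Algebra κ C]
    (Δ : Derivation κ C C), (∀ z, Δ z = 0 → ∃ a : κ, algebraMap κ C a = z) →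
    ∀ lam : Fin N → C, LinearIndependent κ lam → ∀ (z : C) (A : Finset κ) (B : Finset (Fin N → κ)),
    (∀ b ∈ B, ∀ k, b k ∈ A) → ∀ F : MvPolynomial ℕ C, F ∈ supported C {i : ℕ | i < n + 1} →
    F.totalDegree ≤ d → (∀ b ∈ B, ev Δ (cb lam z b) F = 0) →
    (∀ b ∈ B, ev Δ (cb lam z b) (pderiv n F) ≠ 0) →
    B.card ≤ (c * ((N + 1) ^ 3 * A.card) + 1) ^ (n + 1) := by
  refine ⟨2 * (5 * d + 2), fun N κ C _ _ _ Δ hΔ lam hlam z A B hA F hF hd h0 hS => ?_⟩
  classical
  obtain ⟨h1, h2⟩ := jets_InP' Δ lam z B hF hd h0 N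
  set v := vj Δ lam z B with hv
  set S := aeval v (pderiv n F) with hSdef
  have hS0 : ∀ b : B, S b ≠ 0 := by
    intro b
    rw [hSdef, hv, aeval_vj]
    exact hS b.1 b.2
  let β : ℕ → B → C := fun k b => if hk : k < N then algebraMap κ C (b.1 ⟨k, hk⟩) else 0
  have hβ : ∀ k < N, InP C v N 1 (β k) := by
    intro k hk
    have h3 := coord_InP Δ hΔ lam hlam z B ⟨k, hk⟩
    have h4 : β k = fun b : B => algebraMap κ C (b.1 ⟨k, hk⟩) := by
      funext b
      exact dif_pos hk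
    rw [h4]
    exact h3
  have hall : ∀ f : B → C, InP C v N (N * A.card) f := by
    intro f
    have h3 := lagrange β (A.image (algebraMap κ C)) (by
      intro k hk b
      have h4 : β k b = algebraMap κ C (b.1 ⟨k, hk⟩) := dif_pos hk
      rw [h4]
      exact Finset.mem_image_of_mem _ (hA b.1 b.2 _)) (by
      intro b b' hbb
      apply Subtype.ext
      funext k
      have h4 := hbb k k.2
      have e1 : β k b = algebraMap κ C (b.1 k) := dif_pos k.2
      have e2 : β k b' = algebraMap κ C (b'.1 k) := dif_pos k.2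
      rw [e1, e2] at h4
      exact (algebraMap κ C).injective h4) f
    have h5 : InP C v N (N * (A.image (algebraMap κ C)).card) f := by
      have h6 := InP.subst (s := (1 : B → C)) (a := 0) (D := 1) (InP.one.mono le_rfl (Nat.zero_le 1))
        (fun i hi => by
          rw [one_pow, one_mul]
          exact hβ i hi) h3
      rw [one_pow, one_mul] at h6
      exact h6.mono le_rfl (by simp)
    exact h5.mono le_rfl (Nat.mul_le_mul_left _ Finset.card_image_le)
  have hall' : ∀ f : B → C, InP C v (n + 1)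
      ((2 * N + 1) * ((5 * d + 2) * (N + 1)) * (N * A.card)) f := by
    intro f
    have h3 := InP.subst h1 h2 (hall (fun b => (S b ^ (2 * N * (N * A.card)))⁻¹ * f b))
    have h4 : S ^ (2 * N * (N * A.card)) * (fun b => (S b ^ (2 * N * (N * A.card)))⁻¹ * f b) = f := by
      funext b
      rw [Pi.mul_apply, Pi.pow_apply, ← mul_assoc, mul_inv_cancel₀ (pow_ne_zero _ (hS0 b)), one_mul]
    rw [h4] at h3
    exact h3
  have h3 := card_le_of_InP hall'
  rw [Fintype.card_coe] at h3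
  refine h3.trans (Nat.pow_le_pow_left (Nat.add_le_add_right ?_ 1) _)
  calc (2 * N + 1) * ((5 * d + 2) * (N + 1)) * (N * A.card)
      ≤ (2 * (N + 1)) * ((5 * d + 2) * (N + 1)) * ((N + 1) * A.card) := by
        gcongr
        · omega
        · omega
    _ = _ := by ring

/-- **The number of points on a grid of constants at which a combination satisfies a differential
equation of order less than `n`.** -/
theorem count_ode' (n : ℕ) : ∀ d : ℕ, ∃ c : ℕ, ∀ (N : ℕ) (κ C : Type) [Field κ] [Field C]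
    [CharZero C] [Algebra κ C] (Δ : Derivation κ C C),
    (∀ z, Δ z = 0 → ∃ a : κ, algebraMap κ C a = z) →
    ∀ lam : Fin N → C, LinearIndependent κ lam → ∀ (z : C) (A : Finset κ), A.Nonempty →
    ∀ B : Finset (Fin N → κ), (∀ b ∈ B, ∀ k, b k ∈ A) → ∀ F : MvPolynomial ℕ C, F ≠ 0 →
    F ∈ supported C {i : ℕ | i < n} → F.totalDegree ≤ d → (∀ b ∈ B, ev Δ (cb lam z b) F = 0) →
    B.card ≤ c * ((N + 1) ^ 3 * A.card) ^ n := by
  intro d
  induction d with
  | zero =>
    refine ⟨0, fun N κ C _ _ _ _ Δ hΔ lam hlam z A hA B hBA F hF0 hF hd h0 => ?_⟩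
    have h1 : F = MvPolynomial.C (coeff 0 F) := totalDegree_eq_zero_iff_eq_C.1 (Nat.le_zero.1 hd)
    rw [Nat.zero_mul, Nat.le_zero, Finset.card_eq_zero, Finset.eq_empty_iff_forall_notMem]
    intro b hb
    have h2 := h0 b hb
    rw [h1] at h2
    unfold ev at h2
    rw [eval_C] at h2
    apply hF0
    rw [h1, h2, map_zero]
  | succ d ih =>
    choose f hf using fun i : ℕ => step_count' i (d + 1)
    obtain ⟨c, ih⟩ := ih
    refine ⟨c + ∑ i ∈ Finset.range n, (f i + 1) ^ n,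
      fun N κ C _ _ _ _ Δ hΔ lam hlam z A hA B hBA F hF0 hF hd h0 => ?_⟩
    classical
    have hA1 : 1 ≤ (N + 1) ^ 3 * A.card := Nat.mul_pos (pow_pos (Nat.succ_pos N) 3) hA.card_pos
    rcases B.eq_empty_or_nonempty with rfl | ⟨b₀, hb₀⟩
    · simp
    rcases Pool.Agent.Zk44.SC.last_var hF with ⟨a, rfl⟩ | ⟨i, hin, hiF, hFi⟩
    · exfalso
      have h4 := h0 b₀ hb₀
      unfold ev at h4
      rw [eval_C] at h4
      apply hF0
      rw [h4, map_zero]
    set M : ℕ := (N + 1) ^ 3 * A.card with hM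
    set S := pderiv i F with hS
    have hSd : S.totalDegree ≤ d := by
      have h5 := pderiv_totalDegree i F hiF
      rw [← hS] at h5
      omega
    set B₁ := B.filter (fun b => ev Δ (cb lam z b) S = 0) with hB₁
    set B₂ := B.filter (fun b => ¬ ev Δ (cb lam z b) S = 0) with hB₂
    have hsum : B₁.card + B₂.card = B.card := Finset.card_filter_add_card_filter_not _
    have h1 : B₁.card ≤ c * M ^ n :=
      ih N κ C Δ hΔ lam hlam z A hA B₁ (fun b hb => hBA b (Finset.mem_filter.1 hb).1) S hiF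
        (pderiv_supported i hF) hSd (fun b hb => (Finset.mem_filter.1 hb).2)
    have h2 : B₂.card ≤ (f i * M + 1) ^ (i + 1) :=
      hf i N κ C Δ hΔ lam hlam z A B₂ (fun b hb => hBA b (Finset.mem_filter.1 hb).1) F hFi hd
        (fun b hb => h0 b (Finset.mem_filter.1 hb).1) (fun b hb => (Finset.mem_filter.1 hb).2)
    have h3 : (f i * M + 1) ^ (i + 1) ≤ (f i + 1) ^ n * M ^ n := by
      calc (f i * M + 1) ^ (i + 1) ≤ ((f i + 1) * M) ^ (i + 1) :=
            Nat.pow_le_pow_left (by nlinarith) _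
        _ ≤ ((f i + 1) * M) ^ n := Nat.pow_le_pow_right (by nlinarith) (by omega)
        _ = (f i + 1) ^ n * M ^ n := mul_pow _ _ _
    have h4 : (f i + 1) ^ n ≤ ∑ i ∈ Finset.range n, (f i + 1) ^ n :=
      Finset.single_le_sum (f := fun i => (f i + 1) ^ n) (fun _ _ => Nat.zero_le _)
        (Finset.mem_range.2 hin)
    calc B.card = B₁.card + B₂.card := hsum.symm
      _ ≤ c * M ^ n + (f i + 1) ^ n * M ^ n := Nat.add_le_add h1 (h2.trans h3)
      _ ≤ c * M ^ n + (∑ i ∈ Finset.range n, (f i + 1) ^ n) * M ^ n :=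
          Nat.add_le_add_left (Nat.mul_le_mul_right _ h4) _
      _ = _ := by rw [Nat.add_mul]

end Single

section Joint

open Pool.Agent.Zk44.SC

variable {κ C : Type} [Field κ] [Field C] [Algebra κ C]

/-- **The points at which the two separants do not vanish.** -/
theorem step_joint' (n₁ n₂ d : ℕ) : ∃ c : ℕ, ∀ (N : ℕ) (κ C : Type) [Field κ] [Field C] [Algebra κ C]
    [Countable κ] [Uncountable C]
    (Δ : Derivation κ C C), (∀ z, Δ z = 0 → ∃ a : κ, algebraMap κ C a = z) →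
    ∀ x l : Fin N → C, (∀ c : Fin N → κ, ∑ j, c j • x j = 0 → ∑ j, c j • l j = 0 → c = 0) →
    ∀ (z₀ l₀ : C) (A : Finset κ) (B : Finset (Fin N → κ)), (∀ b ∈ B, ∀ k, b k ∈ A) →
    ∀ F G : MvPolynomial ℕ C, F ∈ supported C {i : ℕ | i < n₁ + 1} →
    G ∈ supported C {i : ℕ | i < n₂ + 1} → F.totalDegree ≤ d → G.totalDegree ≤ d →
    (∀ b ∈ B, ev Δ (cb x z₀ b) F = 0) → (∀ b ∈ B, ev Δ (cb l l₀ b) G = 0) →
    (∀ b ∈ B, ev Δ (cb x z₀ b) (pderiv n₁ F) ≠ 0) →
    (∀ b ∈ B, ev Δ (cb l l₀ b) (pderiv n₂ G) ≠ 0) →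
    B.card ≤ (c * ((N + 1) ^ 4 * A.card) + 1) ^ (2 * (n₁ + n₂ + 1)) := by
  refine ⟨48 * (5 * d + 2), fun N κ C _ _ _ _ _ Δ hΔ x l hxl z₀ l₀ A B hA F G hF hG hFd hGd hF0
    hG0 hFS hGS => ?_⟩
  classical
  obtain ⟨h1, h2⟩ := jets_InP' Δ x z₀ B hF hFd hF0 N
  obtain ⟨k1, k2⟩ := jets_InP' Δ l l₀ B hG hGd hG0 N
  set D₀ := (5 * d + 2) * (N + 1) with hD₀
  set a := 2 * N with ha
  set D := 4 * D₀ + 6 * a * D₀ with hD
  set v := vv Δ x l z₀ l₀ B with hv
  set S₁ := aeval (vj Δ x z₀ B) (pderiv n₁ F) with hS₁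
  set S₂ := aeval (vj Δ l l₀ B) (pderiv n₂ G) with hS₂
  set n' := 2 * (n₁ + n₂ + 1) with hn'
  have tr1 : ∀ {T : ℕ} {f : B → C}, InP C (vj Δ x z₀ B) (n₁ + 1) T f → InP C v n' T f := by
    intro T f h
    exact InP.ren (fun j => 2 * j) (fun j _ => vv_even Δ x l z₀ l₀ B j)
      (fun j hj => by show 2 * j < n'; omega) h
  have tr2 : ∀ {T : ℕ} {f : B → C}, InP C (vj Δ l l₀ B) (n₂ + 1) T f → InP C v n' T f := by
    intro T f h
    exact InP.ren (fun j => 2 * j + 1) (fun j _ => vv_odd Δ x l z₀ l₀ B j)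
      (fun j hj => by show 2 * j + 1 < n'; omega) h
  have hS₁0 : ∀ b : B, S₁ b ≠ 0 := by
    intro b
    rw [hS₁, aeval_vj]
    exact hFS b.1 b.2
  have hS₂0 : ∀ b : B, S₂ b ≠ 0 := by
    intro b
    rw [hS₂, aeval_vj]
    exact hGS b.1 b.2
  set S := S₁ * S₂ with hS
  have hS0 : ∀ b : B, S b ≠ 0 := fun b => mul_ne_zero (hS₁0 b) (hS₂0 b)
  have hSP : InP C v n' D S := ((tr1 h1).mul (tr2 k1)).mono le_rfl (by
    rw [hD]; nlinarith [Nat.zero_le (a * D₀)])
  have hSv : ∀ i < 2 * N, InP C v n' D (S ^ (a + a) * v i) := by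
    intro i hi
    rcases Nat.even_or_odd' i with ⟨j, rfl | rfl⟩
    · have e1 : S ^ (a + a) * v (2 * j) = S₁ ^ a * (S₂ ^ (a + a) * (S₁ ^ a * vj Δ x z₀ B j)) := by
        rw [hv, ← vv_even Δ x l z₀ l₀ B j, hS, mul_pow, pow_add S₁]
        ring
      rw [e1]
      refine (((tr1 h1).pow a).mul (((tr2 k1).pow (a + a)).mul (tr1 (h2 j (by omega))))).mono
        le_rfl ?_
      rw [hD]
      nlinarith [Nat.zero_le (a * D₀)]
    · have e1 : S ^ (a + a) * v (2 * j + 1) =
          S₁ ^ (a + a) * (S₂ ^ a * (S₂ ^ a * vj Δ l l₀ B j)) := by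
        rw [hv, ← vv_odd Δ x l z₀ l₀ B j, hS, mul_pow, pow_add S₂]
        ring
      rw [e1]
      refine (((tr1 h1).pow (a + a)).mul (((tr2 k1).pow a).mul (tr2 (k2 j (by omega))))).mono
        le_rfl ?_
      rw [hD]
      nlinarith [Nat.zero_le (a * D₀)]
  let β : ℕ → B → C := fun k b => if hk : k < N then algebraMap κ C (b.1 ⟨k, hk⟩) else 0
  have hβ : ∀ k < N, InP C v (2 * N) 1 (β k) := by
    intro k hk
    have h3 := coord_joint Δ hΔ x l hxl z₀ l₀ B ⟨k, hk⟩
    have h4 : β k = fun b : B => algebraMap κ C (b.1 ⟨k, hk⟩) := by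
      funext b
      exact dif_pos hk
    rw [h4]
    exact h3
  have hall : ∀ f : B → C, InP C v (2 * N) (N * A.card) f := by
    intro f
    have h3 := lagrange β (A.image (algebraMap κ C)) (by
      intro k hk b
      have h4 : β k b = algebraMap κ C (b.1 ⟨k, hk⟩) := dif_pos hk
      rw [h4]
      exact Finset.mem_image_of_mem _ (hA b.1 b.2 _)) (by
      intro b b' hbb
      apply Subtype.ext
      funext k
      have h4 := hbb k k.2
      have e1 : β k b = algebraMap κ C (b.1 k) := dif_pos k.2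
      have e2 : β k b' = algebraMap κ C (b'.1 k) := dif_pos k.2
      rw [e1, e2] at h4
      exact (algebraMap κ C).injective h4) f
    have h5 : InP C v (2 * N) (N * (A.image (algebraMap κ C)).card) f := by
      have h6 := InP.subst (s := (1 : B → C)) (a := 0) (D := 1) (InP.one.mono le_rfl (Nat.zero_le 1))
        (fun i hi => by
          rw [one_pow, one_mul]
          exact hβ i hi) h3
      rw [one_pow, one_mul] at h6
      exact h6.mono le_rfl (by simp)
    exact h5.mono le_rfl (Nat.mul_le_mul_left _ Finset.card_image_le)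
  have hall' : ∀ f : B → C, InP C v n' ((a + a + 1) * D * (N * A.card)) f := by
    intro f
    have h3 := InP.subst hSP hSv (hall (fun b => (S b ^ ((a + a) * (N * A.card)))⁻¹ * f b))
    have h4 : S ^ ((a + a) * (N * A.card)) *
        (fun b => (S b ^ ((a + a) * (N * A.card)))⁻¹ * f b) = f := by
      funext b
      rw [Pi.mul_apply, Pi.pow_apply, ← mul_assoc, mul_inv_cancel₀ (pow_ne_zero _ (hS0 b)), one_mul]
    rw [h4] at h3
    exact h3
  have h3 := card_le_of_InP hall'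
  rw [Fintype.card_coe] at h3
  refine h3.trans (Nat.pow_le_pow_left (Nat.add_le_add_right ?_ 1) _)
  calc (a + a + 1) * D * (N * A.card)
      ≤ (4 * (N + 1)) * (12 * (N + 1) * D₀) * ((N + 1) * A.card) := by
        gcongr
        · omega
        · rw [hD]
          nlinarith [Nat.zero_le (N * D₀)]
        · omega
    _ = _ := by rw [hD₀]; ring

/-- **The number of points at which both combinations satisfy differential equations.** -/
theorem count_joint' (n : ℕ) : ∀ e : ℕ, ∃ c : ℕ, ∀ (N : ℕ) (κ C : Type) [Field κ] [Field C]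
    [CharZero C] [Algebra κ C] [Countable κ] [Uncountable C]
    (Δ : Derivation κ C C), (∀ z, Δ z = 0 → ∃ a : κ, algebraMap κ C a = z) →
    ∀ x l : Fin N → C, (∀ c : Fin N → κ, ∑ j, c j • x j = 0 → ∑ j, c j • l j = 0 → c = 0) →
    ∀ (z₀ l₀ : C) (A : Finset κ), A.Nonempty → ∀ B : Finset (Fin N → κ), (∀ b ∈ B, ∀ k, b k ∈ A) →
    ∀ F G : MvPolynomial ℕ C, F ≠ 0 → G ≠ 0 → F ∈ supported C {i : ℕ | i < n} →
    G ∈ supported C {i : ℕ | i < n} → F.totalDegree + G.totalDegree ≤ e →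
    (∀ b ∈ B, ev Δ (cb x z₀ b) F = 0) → (∀ b ∈ B, ev Δ (cb l l₀ b) G = 0) →
    B.card ≤ c * ((N + 1) ^ 4 * A.card) ^ (4 * n) := by
  intro e
  induction e with
  | zero =>
    refine ⟨0, fun N κ C _ _ _ _ _ _ Δ hΔ x l hxl z₀ l₀ A hA B hBA F G hF0 hG0 hF hG hd hFB hGB => ?_⟩
    have h1 : F = MvPolynomial.C (coeff 0 F) := totalDegree_eq_zero_iff_eq_C.1 (by omega)
    rw [Nat.zero_mul, Nat.le_zero, Finset.card_eq_zero, Finset.eq_empty_iff_forall_notMem]
    intro b hb
    have h2 := hFB b hb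
    rw [h1] at h2
    unfold ev at h2
    rw [eval_C] at h2
    apply hF0
    rw [h1, h2, map_zero]
  | succ e ih =>
    choose f hf using fun (i j : ℕ) => step_joint' i j (e + 1)
    obtain ⟨c, ih⟩ := ih
    refine ⟨2 * c + ∑ i ∈ Finset.range n, ∑ j ∈ Finset.range n, (f i j + 1) ^ (4 * n),
      fun N κ C _ _ _ _ _ _ Δ hΔ x l hxl z₀ l₀ A hA B hBA F G hF0 hG0 hF hG hd hFB hGB => ?_⟩
    classical
    set M : ℕ := (N + 1) ^ 4 * A.card with hM
    have hA1 : 1 ≤ M := Nat.mul_pos (pow_pos (Nat.succ_pos N) 4) hA.card_pos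
    have hconst : ∀ (H : MvPolynomial ℕ C) (a : C), H ≠ 0 → H = MvPolynomial.C a →
        ∀ y, ev Δ y H ≠ 0 := by
      intro H a hH hHa y h0
      rw [hHa] at h0
      unfold ev at h0
      rw [eval_C] at h0
      apply hH
      rw [hHa, h0, map_zero]
    rcases B.eq_empty_or_nonempty with rfl | ⟨b₀, hb₀⟩
    · simp
    rcases last_var hF with ⟨a, ha⟩ | ⟨i, hi, hiF, hFi⟩
    · exact absurd (hFB b₀ hb₀) (hconst F a hF0 ha _)
    rcases last_var hG with ⟨a, ha⟩ | ⟨j, hj, hjG, hGj⟩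
    · exact absurd (hGB b₀ hb₀) (hconst G a hG0 ha _)
    set S₁ := pderiv i F with hS₁
    set S₂ := pderiv j G with hS₂
    have hS₁d : S₁.totalDegree + 1 ≤ F.totalDegree := pderiv_totalDegree i F hiF
    have hS₂d : S₂.totalDegree + 1 ≤ G.totalDegree := pderiv_totalDegree j G hjG
    set B₁ := B.filter (fun b => ev Δ (cb x z₀ b) S₁ = 0) with hB₁
    set B' := B.filter (fun b => ¬ ev Δ (cb x z₀ b) S₁ = 0) with hB'
    set B₂ := B'.filter (fun b => ev Δ (cb l l₀ b) S₂ = 0) with hB₂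
    set B₃ := B'.filter (fun b => ¬ ev Δ (cb l l₀ b) S₂ = 0) with hB₃
    have hsum1 : B₁.card + B'.card = B.card := Finset.card_filter_add_card_filter_not _
    have hsum2 : B₂.card + B₃.card = B'.card := Finset.card_filter_add_card_filter_not _
    have hsub1 : ∀ b ∈ B₁, b ∈ B := fun b hb => (Finset.mem_filter.1 hb).1
    have hsub' : ∀ b ∈ B', b ∈ B := fun b hb => (Finset.mem_filter.1 hb).1
    have hsub2 : ∀ b ∈ B₂, b ∈ B := fun b hb => hsub' b (Finset.mem_filter.1 hb).1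
    have hsub3 : ∀ b ∈ B₃, b ∈ B := fun b hb => hsub' b (Finset.mem_filter.1 hb).1
    have h1 : B₁.card ≤ c * M ^ (4 * n) :=
      ih N κ C Δ hΔ x l hxl z₀ l₀ A hA B₁ (fun b hb => hBA b (hsub1 b hb)) S₁ G hiF hG0
        (pderiv_supported i hF) hG (by omega) (fun b hb => (Finset.mem_filter.1 hb).2)
        (fun b hb => hGB b (hsub1 b hb))
    have h2 : B₂.card ≤ c * M ^ (4 * n) :=
      ih N κ C Δ hΔ x l hxl z₀ l₀ A hA B₂ (fun b hb => hBA b (hsub2 b hb)) F S₂ hF0 hjG hF
        (pderiv_supported j hG) (by omega) (fun b hb => hFB b (hsub2 b hb))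
        (fun b hb => (Finset.mem_filter.1 hb).2)
    have h3 : B₃.card ≤ (f i j * M + 1) ^ (2 * (i + j + 1)) :=
      hf i j N κ C Δ hΔ x l hxl z₀ l₀ A B₃ (fun b hb => hBA b (hsub3 b hb)) F G hFi hGj (by omega)
        (by omega) (fun b hb => hFB b (hsub3 b hb)) (fun b hb => hGB b (hsub3 b hb))
        (fun b hb => (Finset.mem_filter.1 (Finset.mem_filter.1 hb).1).2)
        (fun b hb => (Finset.mem_filter.1 hb).2)
    have h4 : (f i j * M + 1) ^ (2 * (i + j + 1)) ≤ (f i j + 1) ^ (4 * n) * M ^ (4 * n) := by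
      calc (f i j * M + 1) ^ (2 * (i + j + 1)) ≤ ((f i j + 1) * M) ^ (2 * (i + j + 1)) :=
            Nat.pow_le_pow_left (by nlinarith) _
        _ ≤ ((f i j + 1) * M) ^ (4 * n) := Nat.pow_le_pow_right (by nlinarith) (by omega)
        _ = (f i j + 1) ^ (4 * n) * M ^ (4 * n) := mul_pow _ _ _
    have h5 : (f i j + 1) ^ (4 * n) ≤
        ∑ i ∈ Finset.range n, ∑ j ∈ Finset.range n, (f i j + 1) ^ (4 * n) := by
      refine le_trans ?_ (Finset.single_le_sum
        (f := fun i => ∑ j ∈ Finset.range n, (f i j + 1) ^ (4 * n)) (fun _ _ => Nat.zero_le _)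
        (Finset.mem_range.2 hi))
      exact Finset.single_le_sum (f := fun j => (f i j + 1) ^ (4 * n)) (fun _ _ => Nat.zero_le _)
        (Finset.mem_range.2 hj)
    have h6 := Nat.mul_le_mul_right (M ^ (4 * n)) h5
    calc B.card = B₁.card + (B₂.card + B₃.card) := by rw [hsum2, hsum1]
      _ ≤ c * M ^ (4 * n) + (c * M ^ (4 * n) + (f i j + 1) ^ (4 * n) * M ^ (4 * n)) :=
          Nat.add_le_add h1 (Nat.add_le_add h2 (h3.trans h4))
      _ ≤ c * M ^ (4 * n) + (c * M ^ (4 * n) +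
          (∑ i ∈ Finset.range n, ∑ j ∈ Finset.range n, (f i j + 1) ^ (4 * n)) *
            M ^ (4 * n)) := by gcongr
      _ = _ := by ring

end Joint

end Pool.Agent.Zk44.GP
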