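import Mathlib
import Pool.Agent.Zk44.GE.DimTuple
import Pool.Agent.Zk44.GP.Jets

/-!
# The dimension of the set of bad combinations: polynomial bounds
-/

set_option autoImplicit false

namespace Pool.Agent.Zk44.GP

open Module Finset Pool.Agent.R351 Complex
open Pool.Agent.H301R2.SSE (QB)
open Pool.Agent.Zk44.GE
open Pool.Agent.Zk44.GE.Ode (cb bad_ode)

/-- **The number of bad points on a grid of constants.** -/
theorem count_bad' (h g L : ℕ) : ∃ c : ℕ, ∀ (N : ℕ) (κ C : Type) [Field κ]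
    [IsAlgClosed κ] [CharZero κ] [Field C] [CharZero C] [Algebra κ C] (Δ : Derivation κ C C),
    (∀ z, Δ z = 0 → ∃ a : κ, algebraMap κ C a = z) → ∀ (t : Fin g → C) (lam : Fin N → C),
    LinearIndependent κ lam → ∀ (z : C) (A : Finset κ), A.Nonempty →
    ∀ B : Finset (Fin N → κ), (∀ b ∈ B, ∀ k, b k ∈ A) →
    (∀ b ∈ B, ¬ ∀ u : Fin h → C, ExpLike Δ u → Good1 κ (Fin.append u t) L (cb lam z b)) →
    B.card ≤ c * ((N + 1) * A.card) ^ c := by
  obtain ⟨n, d, R, H⟩ := bad_ode h g L
  obtain ⟨c, hc⟩ := count_ode' n d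
  refine ⟨c + 3 * n + R + 1, fun N κ C _ _ _ _ _ _ Δ hΔ t lam hlam z A hA B hBA hB => ?_⟩
  classical
  have hA1 : 1 ≤ A.card := hA.card_pos
  have hM : 1 ≤ (N + 1) * A.card := Nat.mul_pos (Nat.succ_pos N) hA1
  rcases Nat.lt_or_ge N R with hNR | hNR
  · have h1 : B ⊆ Fintype.piFinset fun _ : Fin N => A := by
      intro b hb
      exact Fintype.mem_piFinset.2 (hBA b hb)
    have h2 := Finset.card_le_card h1
    rw [Fintype.card_piFinset_const] at h2
    calc B.card ≤ A.card ^ N := h2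
      _ ≤ ((N + 1) * A.card) ^ N := Nat.pow_le_pow_left (Nat.le_mul_of_pos_left _ (Nat.succ_pos N)) _
      _ ≤ ((N + 1) * A.card) ^ (c + 3 * n + R + 1) := Nat.pow_le_pow_right hM (by omega)
      _ ≤ _ := Nat.le_mul_of_pos_left _ (by omega)
  · obtain ⟨F, hF0, hF1, hF2, hF3⟩ := H κ C Δ hΔ t N hNR lam hlam
    have h1 := hc N κ C Δ hΔ lam hlam z A hA B hBA F hF0 hF1 hF2 (fun b hb => hF3 _ (hB b hb))
    calc B.card ≤ c * ((N + 1) ^ 3 * A.card) ^ n := h1
      _ ≤ c * (((N + 1) * A.card) ^ 3) ^ n := by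
          gcongr
          rw [mul_pow]
          gcongr
          calc A.card = A.card ^ 1 := (pow_one _).symm
            _ ≤ A.card ^ 3 := Nat.pow_le_pow_right hA1 (by norm_num)
      _ = c * ((N + 1) * A.card) ^ (3 * n) := by rw [← pow_mul]
      _ ≤ _ := Nat.mul_le_mul (by omega) (Nat.pow_le_pow_right hM (by omega))

/-- **One variable.** -/
theorem dim1' (h g L : ℕ) : ∃ c : ℕ, ∀ (N : ℕ) (t : Fin g → ℂ) (x : Fin N → ℂ),
    LinearIndependent QB x → ∀ (z : ℂ) (A : Finset QB), A.Nonempty →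
    ∀ B : Finset (Fin N → QB), (∀ b ∈ B, ∀ k, b k ∈ A) →
    (∀ b ∈ B, ¬ ∀ γ : Fin h → QB, Good1 QB (ap γ t) L (z + ∑ k, (b k : ℂ) * x k)) →
    B.card ≤ c * ((N + 1) * A.card) ^ c := by
  have hac : IsAlgClosure ℚ QB := algebraicClosure.isAlgClosure ℚ ℂ
  have hacl : IsAlgClosed QB := IsAlgClosure.isAlgClosed ℚ
  obtain ⟨Δ, hΔe, hΔ⟩ := exists_der_exp
  obtain ⟨c, hc⟩ := count_bad' h g L
  refine ⟨c, fun N t x hx z A hA B hBA hB => ?_⟩
  refine hc N QB ℂ Δ hΔ t x hx z A hA B hBA (fun b hb hgood => hB b hb fun γ => ?_)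
  have h1 := hgood (fun o => cexp (γ o : ℂ)) (fun o => ⟨Complex.exp_ne_zero _, γ o, hΔe (γ o)⟩)
  have h2 : cb x z b = z + ∑ k, (b k : ℂ) * x k := by
    unfold cb
    refine congrArg (fun s => z + s) (Finset.sum_congr rfl fun k _ => ?_)
    rw [Algebra.smul_def]
    rfl
  rw [h2] at h1
  exact h1

open Classical in
/-- **Several variables.** -/
theorem dimm' (h L m : ℕ) : ∀ g : ℕ, ∃ c : ℕ, ∀ (N : ℕ) (t : Fin g → ℂ)
    (x : Fin m → Fin N → ℂ), (∀ j, LinearIndependent QB (x j)) → ∀ (ζ : Fin m → ℂ)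
    (A : Finset QB), A.Nonempty →
    ((Fintype.piFinset fun _ : Fin m => Fintype.piFinset fun _ : Fin N => A).filter
      (fun P : Fin m → Fin N → QB => ¬ ∀ γ : Fin h → QB, GoodT QB (ap γ t) L
        (fun j => ζ j + ∑ i : Fin N, (P j i : ℂ) * x j i))).card * A.card ^ N ≤
      c * (N + 1) ^ c * A.card ^ (m * N + c) := by
  have hinf : Infinite QB := by
    have hac : IsAlgClosure ℚ QB := algebraicClosure.isAlgClosure ℚ ℂ
    have hacl : IsAlgClosed QB := IsAlgClosure.isAlgClosed ℚ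
    exact IsAlgClosed.instInfinite
  induction m with
  | zero =>
    intro g
    refine ⟨0, fun N t x _ ζ A _ => ?_⟩
    rw [Finset.filter_false_of_mem]
    · simp
    · rintro P _ hT
      exact hT (fun γ => goodT_zero _ _)
  | succ m ih =>
    intro g
    obtain ⟨c₁, h₁⟩ := dim1' h g L
    obtain ⟨c₂, h₂⟩ := ih (g + 1)
    refine ⟨c₁ + c₂, fun N t x hx ζ A hA => ?_⟩
    set B₁ := c₁ * (N + 1) ^ c₁ with hB₁
    set B₂ := c₂ * (N + 1) ^ c₂ with hB₂
    set a : ℕ := A.card with ha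
    have ha1 : 1 ≤ a := hA.card_pos
    set XA : Finset (Fin N → QB) := Fintype.piFinset fun _ => A with hXA
    have hXAc : XA.card = a ^ N := by rw [hXA, Fintype.card_piFinset_const]
    set Yn : Finset (Fin m → Fin N → QB) := Fintype.piFinset fun _ => XA with hYn
    have hYc : Yn.card = a ^ (m * N) := by
      rw [hYn, Fintype.card_piFinset_const, hXAc, ← pow_mul, mul_comm]
    let ev : (Fin N → QB) → ℂ := fun p => ζ 0 + ∑ i : Fin N, (p i : ℂ) * x 0 i
    set H : Finset (Fin N → QB) := XA.filter (fun p =>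
      ¬ ∀ γ : Fin h → QB, Good1 QB (ap γ t) L (ev p)) with hH
    set B := ((Fintype.piFinset fun _ : Fin (m + 1) => XA).filter
      (fun P : Fin (m + 1) → Fin N → QB => ¬ ∀ γ : Fin h → QB, GoodT QB (ap γ t) L
        (fun j => ζ j + ∑ i : Fin N, (P j i : ℂ) * x j i))) with hB
    have hHc : H.card ≤ B₁ * a ^ c₁ := by
      rw [hB₁, mul_assoc, ← mul_pow]
      exact h₁ N t (x 0) (hx 0) (ζ 0) A hA H
        (fun b hb k => Fintype.mem_piFinset.1 (Finset.mem_filter.1 hb).1 k)
        (fun b hb => (Finset.mem_filter.1 hb).2)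
    have hfib : B.card = ∑ p ∈ XA, (B.filter (fun P => P 0 = p)).card := by
      apply Finset.card_eq_sum_card_fiberwise
      intro P hP
      exact Fintype.mem_piFinset.1 (Finset.mem_filter.1 hP).1 0
    have hinj : ∀ p, Set.InjOn (fun P : Fin (m + 1) → Fin N → QB => Fin.tail P)
        (B.filter (fun P => P 0 = p)) := by
      intro p P hP P' hP' hPP
      rw [Finset.mem_coe, Finset.mem_filter] at hP hP'
      rw [← Fin.cons_self_tail P, ← Fin.cons_self_tail P', hP.2, hP'.2]
      exact congrArg _ hPP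
    have hall : ∀ p ∈ XA, (B.filter (fun P => P 0 = p)).card ≤ a ^ (m * N) := by
      intro p _
      rw [← hYc]
      refine Finset.card_le_card_of_injOn (fun P => Fin.tail P) ?_ (hinj p)
      intro P hP
      rw [Finset.mem_coe, Finset.mem_filter, hB, Finset.mem_filter] at hP
      have h3 := Fintype.mem_piFinset.1 hP.1.1
      exact Fintype.mem_piFinset.2 (fun j => h3 j.succ)
    have hgood : ∀ p ∈ XA, p ∉ H → (B.filter (fun P => P 0 = p)).card * a ^ N ≤
        B₂ * a ^ (m * N + c₂) := by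
      intro p hp hpH
      have h₀ : ∀ γ : Fin h → QB, Good1 QB (ap γ t) L (ev p) := by
        by_contra hcon
        exact hpH (Finset.mem_filter.2 ⟨hp, hcon⟩)
      have h3 := h₂ N (Fin.cons (ev p) t : Fin (g + 1) → ℂ) (fun j => x j.succ)
        (fun j => hx j.succ) (fun j => ζ j.succ) A hA
      refine le_trans (Nat.mul_le_mul_right _ ?_) h3
      refine Finset.card_le_card_of_injOn (fun P => Fin.tail P) ?_ (hinj p)
      intro P hP
      rw [Finset.mem_coe, Finset.mem_filter, hB, Finset.mem_filter] at hP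
      obtain ⟨⟨hPA, hTi⟩, hP0⟩ := hP
      have h6 := Fintype.mem_piFinset.1 hPA
      rw [Finset.mem_coe, Finset.mem_filter]
      refine ⟨Fintype.mem_piFinset.2 (fun j => h6 j.succ), ?_⟩
      intro h7
      apply hTi
      intro γ
      have h4 : GoodT QB (Fin.cons (ev p) (ap γ t) : Fin (h + g + 1) → ℂ) L
          (fun j : Fin m => ζ j.succ + ∑ i : Fin N, ((Fin.tail P) j i : ℂ) * x j.succ i) := by
        refine GoodT.reindex (T' := ap γ (Fin.cons (ev p) t : Fin (g + 1) → ℂ))
          (Fin.cons (Fin.natAdd h 0) (fun o => Fin.addCases (fun o => Fin.castAdd (g + 1) o)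
            (fun o => Fin.natAdd h o.succ) o)) ?_ (h7 γ)
        intro o
        refine Fin.cases ?_ (fun o => ?_) o
        · simp only [Fin.cons_zero]
          unfold ap
          rw [Fin.append_right, Fin.cons_zero]
        · simp only [Fin.cons_succ]
          unfold ap
          refine Fin.addCases (fun o => ?_) (fun o => ?_) o
          · rw [Fin.addCases_left, Fin.append_left, Fin.append_left]
          · rw [Fin.addCases_right, Fin.append_right, Fin.append_right, Fin.cons_succ]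
      have h2 := goodT_cons (h₀ γ) h4
      have h3 : (fun j => ζ j + ∑ i : Fin N, (P j i : ℂ) * x j i) =
          (Fin.cons (ev p) (fun j : Fin m => ζ j.succ + ∑ i : Fin N, ((Fin.tail P) j i : ℂ) *
            x j.succ i) : Fin (m + 1) → ℂ) := by
        funext j
        refine Fin.cases ?_ (fun j => ?_) j
        · rw [Fin.cons_zero, ← hP0]
        · rw [Fin.cons_succ]
          rfl
      rw [h3]
      exact h2
    have htot : B.card * a ^ N ≤ B₁ * a ^ c₁ * (a ^ (m * N) * a ^ N) +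
        a ^ N * (B₂ * a ^ (m * N + c₂)) := by
      rw [hfib, Finset.sum_mul, ← Finset.sum_filter_add_sum_filter_not XA (fun p => p ∈ H)]
      apply Nat.add_le_add
      · refine (Finset.sum_le_sum (fun p hp => Nat.mul_le_mul_right _
          (hall p (Finset.mem_filter.1 hp).1))).trans ?_
        rw [Finset.sum_const, smul_eq_mul]
        refine Nat.mul_le_mul_right _ (le_trans (Finset.card_le_card ?_) hHc)
        intro p hp
        exact (Finset.mem_filter.1 hp).2
      · refine (Finset.sum_le_sum (fun p hp => hgood p (Finset.mem_filter.1 hp).1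
          (Finset.mem_filter.1 hp).2)).trans ?_
        rw [Finset.sum_const, smul_eq_mul, ← hXAc]
        exact Nat.mul_le_mul_right _ (Finset.card_le_card (Finset.filter_subset _ _))
    refine htot.trans ?_
    have e1 : B₁ * a ^ c₁ * (a ^ (m * N) * a ^ N) = B₁ * a ^ ((m + 1) * N + c₁) := by
      rw [mul_assoc, ← pow_add, ← pow_add]
      congr 2
      ring
    have e2 : a ^ N * (B₂ * a ^ (m * N + c₂)) = B₂ * a ^ ((m + 1) * N + c₂) := by
      have : a ^ ((m + 1) * N + c₂) = a ^ N * a ^ (m * N + c₂) := by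
        rw [← pow_add]
        congr 1
        ring
      rw [this]
      ring
    rw [e1, e2]
    have k0 : B₁ + B₂ ≤ (c₁ + c₂) * (N + 1) ^ (c₁ + c₂) := by
      rw [Nat.add_mul]
      exact Nat.add_le_add
        (Nat.mul_le_mul_left _ (Nat.pow_le_pow_right (Nat.succ_pos N) (Nat.le_add_right _ _)))
        (Nat.mul_le_mul_left _ (Nat.pow_le_pow_right (Nat.succ_pos N) (Nat.le_add_left _ _)))
    refine le_trans ?_ (Nat.mul_le_mul_right _ k0)
    rw [Nat.add_mul B₁ B₂]
    have k1 : a ^ ((m + 1) * N + c₁) ≤ a ^ ((m + 1) * N + (c₁ + c₂)) :=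
      Nat.pow_le_pow_right ha1 (Nat.add_le_add_left (Nat.le_add_right _ _) _)
    have k2 : a ^ ((m + 1) * N + c₂) ≤ a ^ ((m + 1) * N + (c₁ + c₂)) :=
      Nat.pow_le_pow_right ha1 (Nat.add_le_add_left (Nat.le_add_left _ _) _)
    exact Nat.add_le_add (Nat.mul_le_mul_left _ k1) (Nat.mul_le_mul_left _ k2)

/-- the form of the bound -/
theorem final_bound (c : ℕ) {n N a b : ℕ} (hN : 1 ≤ N) (ha : 1 ≤ a)
    (h : b * a ^ N ≤ c * (N + 1) ^ c * a ^ ((n + 1) * N + c)) :
    b ≤ ((2 * c + 1) * N * a) ^ (2 * c + 1) * a ^ (n * N) := by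
  have hA1 : 0 < a ^ N := pow_pos ha N
  have h3 : c * (N + 1) ^ c * a ^ c ≤ ((2 * c + 1) * N * a) ^ (2 * c + 1) := by
    have e1 : (N + 1) ^ c ≤ (2 * N) ^ c := Nat.pow_le_pow_left (by omega) c
    have e2 : c ≤ (2 * c + 1) ^ 1 := by rw [pow_one]; omega
    have e3 : 1 ≤ N * a := Nat.mul_pos hN ha
    rcases Nat.eq_zero_or_pos c with rfl | hc0
    · simp
    calc c * (N + 1) ^ c * a ^ c ≤ (2 * c + 1) ^ 1 * (2 * N) ^ c * a ^ c := by gcongr
      _ ≤ (2 * c + 1) ^ 1 * ((2 * c + 1) * N) ^ c * a ^ c := by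
          gcongr
          omega
      _ = (2 * c + 1) ^ (c + 1) * (N * a) ^ c := by
          rw [mul_pow, mul_pow]
          ring
      _ ≤ (2 * c + 1) ^ (2 * c + 1) * (N * a) ^ (2 * c + 1) := by
          refine Nat.mul_le_mul (Nat.pow_le_pow_right (by omega) (by omega))
            (Nat.pow_le_pow_right e3 (by omega))
      _ = _ := by rw [← mul_pow, mul_assoc]
  refine le_trans ?_ (Nat.mul_le_mul_right _ h3)
  refine Nat.le_of_mul_le_mul_right ?_ hA1
  have h2 : c * (N + 1) ^ c * a ^ c * a ^ (n * N) * a ^ N =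
      c * (N + 1) ^ c * a ^ ((n + 1) * N + c) := by
    rw [mul_assoc, mul_assoc, ← pow_add, ← pow_add]
    congr 2
    ring
  rw [h2]
  exact h

end Pool.Agent.Zk44.GP
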