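import Mathlib
import Pool.Agent.Zk44.SC.Row
import Pool.Agent.Zk44.SC.Rows
import Pool.Agent.Zk44.GP.Jets

/-!
# Combinations such that both the number and its exponential are bad: polynomial bounds
-/

set_option autoImplicit false

namespace Pool.Agent.Zk44.GP

open Module Finset Pool.Agent.R351 Complex
open Pool.Agent.H351R3.Gel (QB)
open Pool.Agent.Zk44.GE.Ode (cb)
open Pool.Agent.Zk44.SC

/-- **One row.** -/
theorem row' (g L : ℕ) : ∃ c : ℕ, ∀ (N : ℕ) (t : Fin g → ℂ) (x : Fin N → ℂ),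
    LinearIndependent ℚ x → ∀ (ζ : ℂ) (A : Finset ℚ), A.Nonempty →
    ∀ B : Finset (Fin N → ℚ), (∀ b ∈ B, ∀ k, b k ∈ A) →
    (∀ b ∈ B, ¬ Good1 QB t L (ζ + ∑ k, (b k : ℂ) * x k) ∧
      ¬ Good1 QB t L (cexp (ζ + ∑ k, (b k : ℂ) * x k))) →
    B.card ≤ c * ((N + 1) * A.card) ^ c := by
  classical
  have hac : IsAlgClosure ℚ QB := algebraicClosure.isAlgClosure ℚ ℂ
  have hacl : IsAlgClosed QB := IsAlgClosure.isAlgClosed ℚ
  have hcnt : Countable QB := Pool.Agent.Zk44.GE.countable_QB
  have hunc : Uncountable ℂ := not_countable_iff.1 (fun h => not_countable_complex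
    (Set.countable_univ_iff.2 h))
  obtain ⟨Δ, hΔ⟩ := exists_shift
  have hconst := const_of hΔ
  obtain ⟨n, d, R, H⟩ := bad_ode2 0 g L
  obtain ⟨lam, hlam⟩ := exists_lam R
  obtain ⟨B₀, hB₀⟩ := count_joint' n (d + d)
  refine ⟨B₀ + 16 * n, fun N t x hx ζ A hA B hBA hB => ?_⟩
  obtain ⟨F, G, hF0, hG0, hF, hG, hFd, hGd, hFbad, hGbad⟩ := H QB ℂ Δ hconst t lam hlam
  -- the points as points over `ℚ̄`
  let ι : (Fin N → ℚ) → (Fin N → QB) := fun b k => algebraMap ℚ QB (b k)
  have hι : Function.Injective ι := by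
    intro b b' h
    funext k
    exact (algebraMap ℚ QB).injective (congrFun h k)
  have hcast : ∀ q : ℚ, ((algebraMap ℚ QB q : QB) : ℂ) = (q : ℂ) := by
    intro q
    simp
  have hcb : ∀ (u : Fin N → ℂ) (z : ℂ) (b : Fin N → ℚ), cb u z (ι b) = z + ∑ k, (b k : ℂ) * u k := by
    intro u z b
    unfold cb
    refine congrArg (fun s => z + s) (Finset.sum_congr rfl fun k _ => ?_)
    rw [Algebra.smul_def]
    have h6 : algebraMap QB ℂ (ι b k) = ((algebraMap ℚ QB (b k) : QB) : ℂ) := rfl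
    rw [h6, hcast]
  have h := hB₀ N QB ℂ Δ hconst x (fun j => psi Δ (x j)) (fun c h1 h2 => joint_indep hΔ x hx c h1 h2)
    ζ (psi Δ ζ) (A.image (algebraMap ℚ QB)) (hA.image _) (B.image ι) (by
      intro b hb k
      obtain ⟨b', hb', rfl⟩ := Finset.mem_image.1 hb
      exact Finset.mem_image_of_mem _ (hBA b' hb' k)) F G hF0 hG0 hF hG (Nat.add_le_add hFd hGd)
    (by
      intro b hb
      obtain ⟨b', hb', rfl⟩ := Finset.mem_image.1 hb
      rw [hcb]
      refine hFbad _ fun hgood => (hB b' hb').1 ?_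
      exact good1_append (fun i => i.elim0) (hgood (fun i => i.elim0) (fun i => i.elim0)))
    (by
      intro b hb
      obtain ⟨b', hb', rfl⟩ := Finset.mem_image.1 hb
      rw [hcb]
      refine hGbad (cexp (ζ + ∑ k, (b' k : ℂ) * x k)) _ (Complex.exp_ne_zero _) ?_
        fun hgood => (hB b' hb').2 ?_
      · rw [der_exp, psi_comb]
      · exact good1_append (fun i => i.elim0) (hgood (fun i => i.elim0) (fun i => i.elim0)))
  rw [Finset.card_image_of_injective _ hι, Finset.card_image_of_injective _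
    (algebraMap ℚ QB).injective] at h
  refine h.trans ?_
  have hA1 : 1 ≤ A.card := hA.card_pos
  calc B₀ * ((N + 1) ^ 4 * A.card) ^ (4 * n) ≤ B₀ * (((N + 1) * A.card) ^ 4) ^ (4 * n) := by
        gcongr
        rw [mul_pow]
        gcongr
        calc A.card = A.card ^ 1 := (pow_one _).symm
          _ ≤ A.card ^ 4 := Nat.pow_le_pow_right hA1 (by norm_num)
    _ = B₀ * ((N + 1) * A.card) ^ (16 * n) := by rw [← pow_mul]; ring_nf
    _ ≤ (B₀ + 16 * n) * ((N + 1) * A.card) ^ (B₀ + 16 * n) := by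
        refine Nat.mul_le_mul (Nat.le_add_right _ _) (Nat.pow_le_pow_right ?_ (Nat.le_add_left _ _))
        exact Nat.mul_pos (Nat.succ_pos N) hA1

open Classical in
/-- **Several rows.** -/
theorem rows' (L m : ℕ) : ∀ g : ℕ, ∃ c : ℕ, ∀ (N : ℕ) (t : Fin g → ℂ)
    (x : Fin m → Fin N → ℂ), (∀ j, LinearIndependent ℚ (x j)) → ∀ (ζ : Fin m → ℂ)
    (A : Finset ℚ), A.Nonempty →
    ((Fintype.piFinset fun _ : Fin m => Fintype.piFinset fun _ : Fin N => A).filter
      (fun P : Fin m → Fin N → ℚ => ∀ e : Fin m → Bool, ¬ GoodT QB t L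
        (fun j => val (e j) (ζ j + ∑ i : Fin N, (P j i : ℂ) * x j i)))).card * A.card ^ N ≤
      c * (N + 1) ^ c * A.card ^ (m * N + c) := by
  have hinf : Infinite QB := by
    have hac : IsAlgClosure ℚ QB := algebraicClosure.isAlgClosure ℚ ℂ
    have hacl : IsAlgClosed QB := IsAlgClosure.isAlgClosed ℚ
    exact IsAlgClosed.instInfinite
  induction m with
  | zero =>
    intro g
    refine ⟨0, fun N t x _ ζ A _ => ?_⟩
    rw [Finset.filter_false_of_mem]
    · simp
    · rintro P _ hT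
      exact hT (fun j => true) (goodT_zero _ _)
  | succ m ih =>
    intro g
    obtain ⟨c₁, h₁⟩ := row' g L
    obtain ⟨c₂, h₂⟩ := ih (g + 1)
    refine ⟨c₁ + c₂, fun N t x hx ζ A hA => ?_⟩
    set B₁ := c₁ * (N + 1) ^ c₁ with hB₁
    set B₂ := c₂ * (N + 1) ^ c₂ with hB₂
    set a : ℕ := A.card with ha
    have ha1 : 1 ≤ a := hA.card_pos
    set XA : Finset (Fin N → ℚ) := Fintype.piFinset fun _ => A with hXA
    have hXAc : XA.card = a ^ N := by rw [hXA, Fintype.card_piFinset_const]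
    set Yn : Finset (Fin m → Fin N → ℚ) := Fintype.piFinset fun _ => XA with hYn
    have hYc : Yn.card = a ^ (m * N) := by
      rw [hYn, Fintype.card_piFinset_const, hXAc, ← pow_mul, mul_comm]
    let ev : (Fin N → ℚ) → ℂ := fun p => ζ 0 + ∑ i : Fin N, (p i : ℂ) * x 0 i
    set H : Finset (Fin N → ℚ) := XA.filter (fun p =>
      ¬ Good1 QB t L (ev p) ∧ ¬ Good1 QB t L (cexp (ev p))) with hH
    set B := ((Fintype.piFinset fun _ : Fin (m + 1) => XA).filter
      (fun P : Fin (m + 1) → Fin N → ℚ => ∀ e : Fin (m + 1) → Bool, ¬ GoodT QB t L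
        (fun j => val (e j) (ζ j + ∑ i : Fin N, (P j i : ℂ) * x j i)))) with hB
    have hHc : H.card ≤ B₁ * a ^ c₁ := by
      rw [hB₁, mul_assoc, ← mul_pow]
      exact h₁ N t (x 0) (hx 0) (ζ 0) A hA H
        (fun b hb k => Fintype.mem_piFinset.1 (Finset.mem_filter.1 hb).1 k)
        (fun b hb => (Finset.mem_filter.1 hb).2)
    have hfib : B.card = ∑ p ∈ XA, (B.filter (fun P => P 0 = p)).card := by
      apply Finset.card_eq_sum_card_fiberwise
      intro P hP
      exact Fintype.mem_piFinset.1 (Finset.mem_filter.1 hP).1 0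
    have hinj : ∀ p, Set.InjOn (fun P : Fin (m + 1) → Fin N → ℚ => Fin.tail P)
        (B.filter (fun P => P 0 = p)) := by
      intro p P hP P' hP' hPP
      rw [Finset.mem_coe, Finset.mem_filter] at hP hP'
      rw [← Fin.cons_self_tail P, ← Fin.cons_self_tail P', hP.2, hP'.2]
      exact congrArg _ hPP
    have hall : ∀ p ∈ XA, (B.filter (fun P => P 0 = p)).card ≤ a ^ (m * N) := by
      intro p _
      rw [← hYc]
      refine Finset.card_le_card_of_injOn (fun P => Fin.tail P) ?_ (hinj p)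
      intro P hP
      rw [Finset.mem_coe, Finset.mem_filter, hB, Finset.mem_filter] at hP
      have h3 := Fintype.mem_piFinset.1 hP.1.1
      exact Fintype.mem_piFinset.2 (fun j => h3 j.succ)
    have hgood : ∀ p ∈ XA, p ∉ H → (B.filter (fun P => P 0 = p)).card * a ^ N ≤
        B₂ * a ^ (m * N + c₂) := by
      intro p hp hpH
      obtain ⟨e₀, h₀⟩ : ∃ e₀ : Bool, Good1 QB t L (val e₀ (ev p)) := by
        by_contra hcon
        push Not at hcon
        refine hpH (Finset.mem_filter.2 ⟨hp, ?_, ?_⟩)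
        · exact hcon false
        · exact hcon true
      have h3 := h₂ N (Fin.cons (val e₀ (ev p)) t : Fin (g + 1) → ℂ) (fun j => x j.succ)
        (fun j => hx j.succ) (fun j => ζ j.succ) A hA
      refine le_trans (Nat.mul_le_mul_right _ ?_) h3
      refine Finset.card_le_card_of_injOn (fun P => Fin.tail P) ?_ (hinj p)
      intro P hP
      rw [Finset.mem_coe, Finset.mem_filter, hB, Finset.mem_filter] at hP
      obtain ⟨⟨hPA, hTi⟩, hP0⟩ := hP
      have h6 := Fintype.mem_piFinset.1 hPA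
      rw [Finset.mem_coe, Finset.mem_filter]
      refine ⟨Fintype.mem_piFinset.2 (fun j => h6 j.succ), ?_⟩
      intro e h7
      apply hTi (Fin.cons e₀ e)
      have h2 := goodT_cons h₀ h7
      have h3 : (fun j => val ((Fin.cons e₀ e : Fin (m + 1) → Bool) j)
          (ζ j + ∑ i : Fin N, (P j i : ℂ) * x j i)) =
          (Fin.cons (val e₀ (ev p)) (fun j : Fin m => val (e j) (ζ j.succ +
            ∑ i : Fin N, ((Fin.tail P) j i : ℂ) * x j.succ i)) : Fin (m + 1) → ℂ) := by
        funext j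
        refine Fin.cases ?_ (fun j => ?_) j
        · rw [Fin.cons_zero, Fin.cons_zero, ← hP0]
        · rw [Fin.cons_succ, Fin.cons_succ]
          rfl
      rw [h3]
      exact h2
    have htot : B.card * a ^ N ≤ B₁ * a ^ c₁ * (a ^ (m * N) * a ^ N) +
        a ^ N * (B₂ * a ^ (m * N + c₂)) := by
      rw [hfib, Finset.sum_mul, ← Finset.sum_filter_add_sum_filter_not XA (fun p => p ∈ H)]
      apply Nat.add_le_add
      · refine (Finset.sum_le_sum (fun p hp => Nat.mul_le_mul_right _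
          (hall p (Finset.mem_filter.1 hp).1))).trans ?_
        rw [Finset.sum_const, smul_eq_mul]
        refine Nat.mul_le_mul_right _ (le_trans (Finset.card_le_card ?_) hHc)
        intro p hp
        exact (Finset.mem_filter.1 hp).2
      · refine (Finset.sum_le_sum (fun p hp => hgood p (Finset.mem_filter.1 hp).1
          (Finset.mem_filter.1 hp).2)).trans ?_
        rw [Finset.sum_const, smul_eq_mul, ← hXAc]
        exact Nat.mul_le_mul_right _ (Finset.card_le_card (Finset.filter_subset _ _))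
    refine htot.trans ?_
    have e1 : B₁ * a ^ c₁ * (a ^ (m * N) * a ^ N) = B₁ * a ^ ((m + 1) * N + c₁) := by
      rw [mul_assoc, ← pow_add, ← pow_add]
      congr 2
      ring
    have e2 : a ^ N * (B₂ * a ^ (m * N + c₂)) = B₂ * a ^ ((m + 1) * N + c₂) := by
      have : a ^ ((m + 1) * N + c₂) = a ^ N * a ^ (m * N + c₂) := by
        rw [← pow_add]
        congr 1
        ring
      rw [this]
      ring
    rw [e1, e2]
    have k0 : B₁ + B₂ ≤ (c₁ + c₂) * (N + 1) ^ (c₁ + c₂) := by
      rw [Nat.add_mul]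
      exact Nat.add_le_add
        (Nat.mul_le_mul_left _ (Nat.pow_le_pow_right (Nat.succ_pos N) (Nat.le_add_right _ _)))
        (Nat.mul_le_mul_left _ (Nat.pow_le_pow_right (Nat.succ_pos N) (Nat.le_add_left _ _)))
    refine le_trans ?_ (Nat.mul_le_mul_right _ k0)
    rw [Nat.add_mul B₁ B₂]
    have k1 : a ^ ((m + 1) * N + c₁) ≤ a ^ ((m + 1) * N + (c₁ + c₂)) :=
      Nat.pow_le_pow_right ha1 (Nat.add_le_add_left (Nat.le_add_right _ _) _)
    have k2 : a ^ ((m + 1) * N + c₂) ≤ a ^ ((m + 1) * N + (c₁ + c₂)) :=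
      Nat.pow_le_pow_right ha1 (Nat.add_le_add_left (Nat.le_add_left _ _) _)
    exact Nat.add_le_add (Nat.mul_le_mul_left _ k1) (Nat.mul_le_mul_left _ k2)

end Pool.Agent.Zk44.GP
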