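import Mathlib
import Pool.Agent.Zk44.GP.Rows
import Pool.Agent.Zk44.GP.Dim

/-!
# Matrices whose rows lie in an arbitrary set of vectors
-/

set_option autoImplicit false

namespace Pool.Agent.Zk44.GP

open Module Finset Pool.Agent.R351 Complex
open Pool.Agent.H301R2.SSE (QB)
open Pool.Agent.Zk44.GE
open Pool.Agent.Zk44.SC (val)

/-- The induction over the number of rows. -/
theorem induct {R : Type} (m : ℕ)
    (bad : (Fin (m + 1) → R) → Prop) [hdec : DecidablePred bad] (X : Finset R)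
    (b₁ b₂ : ℕ) (H : R → Prop) [hdH : DecidablePred H] (h1 : (X.filter H).card ≤ b₁)
    (h2 : ∀ p ∈ X, ¬ H p → ((Fintype.piFinset fun _ : Fin m => X).filter
      (fun P : Fin m → R => bad (Fin.cons p P))).card * X.card ≤ b₂ * X.card ^ m) :
    ((Fintype.piFinset fun _ : Fin (m + 1) => X).filter bad).card * X.card ≤
      (b₁ + b₂) * X.card ^ (m + 1) := by
  have hR : DecidableEq R := Classical.decEq R
  set B := (Fintype.piFinset fun _ : Fin (m + 1) => X).filter bad with hB
  have hfib : B.card = ∑ p ∈ X, (B.filter (fun P => P 0 = p)).card := by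
    apply Finset.card_eq_sum_card_fiberwise
    intro P hP
    exact Fintype.mem_piFinset.1 (Finset.mem_filter.1 hP).1 0
  have hinj : ∀ p, Set.InjOn (fun P : Fin (m + 1) → R => Fin.tail P)
      (B.filter (fun P => P 0 = p)) := by
    intro p P hP P' hP' hPP
    rw [Finset.mem_coe, Finset.mem_filter] at hP hP'
    rw [← Fin.cons_self_tail P, ← Fin.cons_self_tail P', hP.2, hP'.2]
    exact congrArg _ hPP
  have hall : ∀ p ∈ X, (B.filter (fun P => P 0 = p)).card ≤ X.card ^ m := by
    intro p _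
    rw [← Fintype.card_piFinset_const]
    refine Finset.card_le_card_of_injOn (fun P => Fin.tail P) ?_ (hinj p)
    intro P hP
    rw [Finset.mem_coe, Finset.mem_filter, hB, Finset.mem_filter] at hP
    have h3 := Fintype.mem_piFinset.1 hP.1.1
    exact Fintype.mem_piFinset.2 (fun j => h3 j.succ)
  have hgood : ∀ p ∈ X, ¬ H p → (B.filter (fun P => P 0 = p)).card * X.card ≤ b₂ * X.card ^ m := by
    intro p hp hpH
    refine le_trans (Nat.mul_le_mul_right _ ?_) (h2 p hp hpH)
    refine Finset.card_le_card_of_injOn (fun P => Fin.tail P) ?_ (hinj p)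
    intro P hP
    rw [Finset.mem_coe, Finset.mem_filter, hB, Finset.mem_filter] at hP
    obtain ⟨⟨hPA, hTi⟩, hP0⟩ := hP
    have h6 := Fintype.mem_piFinset.1 hPA
    rw [Finset.mem_coe, Finset.mem_filter]
    refine ⟨Fintype.mem_piFinset.2 (fun j => h6 j.succ), ?_⟩
    rw [← hP0, Fin.cons_self_tail]
    exact hTi
  rw [hfib, Finset.sum_mul, ← Finset.sum_filter_add_sum_filter_not X H, Nat.add_mul]
  apply Nat.add_le_add
  · refine (Finset.sum_le_sum (fun p hp => Nat.mul_le_mul_right _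
      (hall p (Finset.mem_filter.1 hp).1))).trans ?_
    rw [Finset.sum_const, smul_eq_mul, ← pow_succ]
    exact Nat.mul_le_mul_right _ h1
  · refine (Finset.sum_le_sum (fun p hp => hgood p (Finset.mem_filter.1 hp).1
      (Finset.mem_filter.1 hp).2)).trans ?_
    rw [Finset.sum_const, smul_eq_mul, pow_succ]
    calc (X.filter fun p => ¬ H p).card * (b₂ * X.card ^ m)
        ≤ X.card * (b₂ * X.card ^ m) :=
          Nat.mul_le_mul_right _ (Finset.card_le_card (Finset.filter_subset _ _))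
      _ = b₂ * (X.card ^ m * X.card) := by ring

theorem sum_bound (c₁ c₂ M : ℕ) (hM : 1 ≤ M) :
    c₁ * M ^ c₁ + c₂ * M ^ c₂ ≤ (c₁ + c₂) * M ^ (c₁ + c₂) := by
  rw [Nat.add_mul]
  exact Nat.add_le_add
    (Nat.mul_le_mul_left _ (Nat.pow_le_pow_right hM (Nat.le_add_right _ _)))
    (Nat.mul_le_mul_left _ (Nat.pow_le_pow_right hM (Nat.le_add_left _ _)))

open Classical in
/-- **Several rows: the numbers or their exponentials.** -/
theorem rowsX (L m : ℕ) : ∀ g : ℕ, ∃ c : ℕ, ∀ (N : ℕ) (t : Fin g → ℂ)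
    (x : Fin m → Fin N → ℂ), (∀ j, LinearIndependent ℚ (x j)) → ∀ (ζ : Fin m → ℂ)
    (A : Finset ℚ) (X : Finset (Fin N → ℚ)), A.Nonempty → (∀ b ∈ X, ∀ k, b k ∈ A) →
    ((Fintype.piFinset fun _ : Fin m => X).filter
      (fun P : Fin m → Fin N → ℚ => ∀ e : Fin m → Bool, ¬ GoodT QB t L
        (fun j => val (e j) (ζ j + ∑ i : Fin N, (P j i : ℂ) * x j i)))).card * X.card ≤
      c * ((N + 1) * A.card) ^ c * X.card ^ m := by
  have hinf : Infinite QB := by
    have hac : IsAlgClosure ℚ QB := algebraicClosure.isAlgClosure ℚ ℂ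
    have hacl : IsAlgClosed QB := IsAlgClosure.isAlgClosed ℚ
    exact IsAlgClosed.instInfinite
  induction m with
  | zero =>
    intro g
    refine ⟨0, fun N t x _ ζ A X _ _ => ?_⟩
    rw [Finset.filter_false_of_mem]
    · simp
    · rintro P _ hT
      exact hT (fun j => true) (goodT_zero _ _)
  | succ m ih =>
    intro g
    obtain ⟨c₁, h₁⟩ := row' g L
    obtain ⟨c₂, h₂⟩ := ih (g + 1)
    refine ⟨c₁ + c₂, fun N t x hx ζ A X hA hX => ?_⟩
    have hM : 1 ≤ (N + 1) * A.card := Nat.mul_pos (Nat.succ_pos N) hA.card_pos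
    refine le_trans ?_ (Nat.mul_le_mul_right _ (sum_bound c₁ c₂ _ hM))
    let ev : (Fin N → ℚ) → ℂ := fun p => ζ 0 + ∑ i : Fin N, (p i : ℂ) * x 0 i
    refine induct m (fun P : Fin (m + 1) → Fin N → ℚ => ∀ e : Fin (m + 1) → Bool, ¬ GoodT QB t L
        (fun j => val (e j) (ζ j + ∑ i : Fin N, (P j i : ℂ) * x j i))) X
      (c₁ * ((N + 1) * A.card) ^ c₁) (c₂ * ((N + 1) * A.card) ^ c₂)
      (fun p => ¬ Good1 QB t L (ev p) ∧ ¬ Good1 QB t L (cexp (ev p))) ?_ ?_
    · exact h₁ N t (x 0) (hx 0) (ζ 0) A hA _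
        (fun b hb k => hX b (Finset.mem_filter.1 hb).1 k) (fun b hb => (Finset.mem_filter.1 hb).2)
    · intro p hp hpH
      obtain ⟨e₀, h₀⟩ : ∃ e₀ : Bool, Good1 QB t L (val e₀ (ev p)) := by
        by_contra hcon
        push Not at hcon
        exact hpH ⟨hcon false, hcon true⟩
      refine le_trans (Nat.mul_le_mul_right _ (Finset.card_le_card ?_))
        (h₂ N (Fin.cons (val e₀ (ev p)) t : Fin (g + 1) → ℂ) (fun j => x j.succ)
          (fun j => hx j.succ) (fun j => ζ j.succ) A X hA hX)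
      intro P hP
      rw [Finset.mem_filter] at hP ⊢
      refine ⟨hP.1, fun e h7 => hP.2 (Fin.cons e₀ e) ?_⟩
      have h2 := goodT_cons h₀ h7
      have h3 : (fun j => val ((Fin.cons e₀ e : Fin (m + 1) → Bool) j)
          (ζ j + ∑ i : Fin N, (((Fin.cons p P : Fin (m + 1) → Fin N → ℚ) j i : ℚ) : ℂ) * x j i)) =
          (Fin.cons (val e₀ (ev p)) (fun j : Fin m => val (e j) (ζ j.succ +
            ∑ i : Fin N, (P j i : ℂ) * x j.succ i)) : Fin (m + 1) → ℂ) := by
        funext j
        refine Fin.cases ?_ (fun j => ?_) j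
        · rw [Fin.cons_zero, Fin.cons_zero, Fin.cons_zero]
        · rw [Fin.cons_succ, Fin.cons_succ, Fin.cons_succ]
      rw [h3]
      exact h2

open Classical in
/-- **Several rows, over all exponentials.** -/
theorem dimX (h L m : ℕ) : ∀ g : ℕ, ∃ c : ℕ, ∀ (N : ℕ) (t : Fin g → ℂ)
    (x : Fin m → Fin N → ℂ), (∀ j, LinearIndependent QB (x j)) → ∀ (ζ : Fin m → ℂ)
    (A : Finset QB) (X : Finset (Fin N → QB)), A.Nonempty → (∀ b ∈ X, ∀ k, b k ∈ A) →
    ((Fintype.piFinset fun _ : Fin m => X).filter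
      (fun P : Fin m → Fin N → QB => ¬ ∀ γ : Fin h → QB, GoodT QB (ap γ t) L
        (fun j => ζ j + ∑ i : Fin N, (P j i : ℂ) * x j i))).card * X.card ≤
      c * ((N + 1) * A.card) ^ c * X.card ^ m := by
  have hinf : Infinite QB := by
    have hac : IsAlgClosure ℚ QB := algebraicClosure.isAlgClosure ℚ ℂ
    have hacl : IsAlgClosed QB := IsAlgClosure.isAlgClosed ℚ
    exact IsAlgClosed.instInfinite
  induction m with
  | zero =>
    intro g
    refine ⟨0, fun N t x _ ζ A X _ _ => ?_⟩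
    rw [Finset.filter_false_of_mem]
    · simp
    · rintro P _ hT
      exact hT (fun γ => goodT_zero _ _)
  | succ m ih =>
    intro g
    obtain ⟨c₁, h₁⟩ := dim1' h g L
    obtain ⟨c₂, h₂⟩ := ih (g + 1)
    refine ⟨c₁ + c₂, fun N t x hx ζ A X hA hX => ?_⟩
    have hM : 1 ≤ (N + 1) * A.card := Nat.mul_pos (Nat.succ_pos N) hA.card_pos
    refine le_trans ?_ (Nat.mul_le_mul_right _ (sum_bound c₁ c₂ _ hM))
    let ev : (Fin N → QB) → ℂ := fun p => ζ 0 + ∑ i : Fin N, (p i : ℂ) * x 0 i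
    refine induct m (fun P : Fin (m + 1) → Fin N → QB => ¬ ∀ γ : Fin h → QB, GoodT QB (ap γ t) L
        (fun j => ζ j + ∑ i : Fin N, (P j i : ℂ) * x j i)) X
      (c₁ * ((N + 1) * A.card) ^ c₁) (c₂ * ((N + 1) * A.card) ^ c₂)
      (fun p => ¬ ∀ γ : Fin h → QB, Good1 QB (ap γ t) L (ev p)) ?_ ?_
    · exact h₁ N t (x 0) (hx 0) (ζ 0) A hA _
        (fun b hb k => hX b (Finset.mem_filter.1 hb).1 k) (fun b hb => (Finset.mem_filter.1 hb).2)
    · intro p hp hpH
      have h₀ : ∀ γ : Fin h → QB, Good1 QB (ap γ t) L (ev p) := not_not.1 hpH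
      refine le_trans (Nat.mul_le_mul_right _ (Finset.card_le_card ?_))
        (h₂ N (Fin.cons (ev p) t : Fin (g + 1) → ℂ) (fun j => x j.succ)
          (fun j => hx j.succ) (fun j => ζ j.succ) A X hA hX)
      intro P hP
      rw [Finset.mem_filter] at hP ⊢
      refine ⟨hP.1, fun h7 => hP.2 fun γ => ?_⟩
      have h4 : GoodT QB (Fin.cons (ev p) (ap γ t) : Fin (h + g + 1) → ℂ) L
          (fun j : Fin m => ζ j.succ + ∑ i : Fin N, (P j i : ℂ) * x j.succ i) := by
        refine GoodT.reindex (T' := ap γ (Fin.cons (ev p) t : Fin (g + 1) → ℂ))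
          (Fin.cons (Fin.natAdd h 0) (fun o => Fin.addCases (fun o => Fin.castAdd (g + 1) o)
            (fun o => Fin.natAdd h o.succ) o)) ?_ (h7 γ)
        intro o
        refine Fin.cases ?_ (fun o => ?_) o
        · simp only [Fin.cons_zero]
          unfold ap
          rw [Fin.append_right, Fin.cons_zero]
        · simp only [Fin.cons_succ]
          unfold ap
          refine Fin.addCases (fun o => ?_) (fun o => ?_) o
          · rw [Fin.addCases_left, Fin.append_left, Fin.append_left]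
          · rw [Fin.addCases_right, Fin.append_right, Fin.append_right, Fin.cons_succ]
      have h2 := goodT_cons (h₀ γ) h4
      have h3 : (fun j => ζ j + ∑ i : Fin N,
          (((Fin.cons p P : Fin (m + 1) → Fin N → QB) j i : QB) : ℂ) * x j i) =
          (Fin.cons (ev p) (fun j : Fin m => ζ j.succ + ∑ i : Fin N, (P j i : ℂ) *
            x j.succ i) : Fin (m + 1) → ℂ) := by
        funext j
        refine Fin.cases ?_ (fun j => ?_) j
        · rw [Fin.cons_zero, Fin.cons_zero]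
        · rw [Fin.cons_succ, Fin.cons_succ]
      rw [h3]
      exact h2

/-- the form of the bound -/
theorem final_boundX (c : ℕ) {n N a b x : ℕ} (hN : 1 ≤ N) (ha : 1 ≤ a) (hx : x = 0 → b = 0)
    (h : b * x ≤ c * ((N + 1) * a) ^ c * x ^ (n + 1)) :
    b ≤ ((2 * c + 1) * N * a) ^ (2 * c + 1) * x ^ n := by
  rcases Nat.eq_zero_or_pos x with h0 | hx1
  · rw [hx h0]
    exact Nat.zero_le _
  have h3 : c * ((N + 1) * a) ^ c ≤ ((2 * c + 1) * N * a) ^ (2 * c + 1) := by
    have e1 : (N + 1) * a ≤ 2 * (N * a) := by nlinarith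
    have e2 : c ≤ (2 * c + 1) ^ 1 := by rw [pow_one]; omega
    have e3 : 1 ≤ N * a := Nat.mul_pos hN ha
    rcases Nat.eq_zero_or_pos c with rfl | hc0
    · simp
    calc c * ((N + 1) * a) ^ c ≤ (2 * c + 1) ^ 1 * (2 * (N * a)) ^ c := by gcongr
      _ ≤ (2 * c + 1) ^ 1 * ((2 * c + 1) * (N * a)) ^ c := by
          gcongr
          omega
      _ = (2 * c + 1) ^ (c + 1) * (N * a) ^ c := by
          rw [mul_pow]
          ring
      _ ≤ (2 * c + 1) ^ (2 * c + 1) * (N * a) ^ (2 * c + 1) := by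
          refine Nat.mul_le_mul (Nat.pow_le_pow_right (by omega) (by omega))
            (Nat.pow_le_pow_right e3 (by omega))
      _ = _ := by rw [← mul_pow, mul_assoc]
  refine le_trans ?_ (Nat.mul_le_mul_right _ h3)
  refine Nat.le_of_mul_le_mul_right ?_ hx1
  rw [mul_assoc, ← pow_succ]
  exact h

end Pool.Agent.Zk44.GP
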