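import Mathlib
import Pool.Agent.H297R2.BakerThm
import Pool.Agent.H297R2.Density
import Pool.Agent.Zk44.GP.Sets

/-!
# Logarithms of divisors
-/

set_option autoImplicit false

namespace Pool.Agent.Zk44.GP

open Module Finset Pool.Agent.R351 Complex
open Pool.Agent.H301R2.SSE (QB)
open Pool.Agent.Zk44.GE

open Classical in
/-- **Logarithms of algebraic numbers.** -/
theorem logsX (g n L : ℕ) : ∃ c : ℕ, ∀ N : ℕ, 1 ≤ N → ∀ lam : Fin (n + 1) → Fin N → ℂ,
    (∀ j i, IsAlgebraic ℚ (Complex.exp (lam j i))) → (∀ j, LinearIndependent ℚ (lam j)) →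
    ∀ (t : Fin g → ℂ) (ζ : Fin (n + 1) → ℂ) (A : Finset QB) (X : Finset (Fin N → QB)),
    A.Nonempty → (∀ v ∈ X, ∀ i, v i ∈ A) →
    ((Fintype.piFinset fun _ : Fin (n + 1) => X).filter
      (fun a : Fin (n + 1) → Fin N → QB => ¬ GoodT QB t L
        (fun j => ζ j + ∑ i : Fin N, (a j i : ℂ) * lam j i))).card ≤
      (c * N * A.card) ^ c * X.card ^ n := by
  obtain ⟨c, hc⟩ := dimX 0 L (n + 1) g
  refine ⟨2 * c + 1, fun N hN lam halg hlam t ζ A X hA hX => ?_⟩
  have h1 := hc N t lam (fun j => by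
    rw [Fintype.linearIndependent_iff]
    intro g hg i
    have h1 := Pool.Agent.H297R2.baker (lam j) (halg j) (hlam j) (fun i => (g i : ℂ))
      (fun i => mem_algebraicClosure_iff.1 (g i).2) (by
        rw [← hg]
        refine Finset.sum_congr rfl fun i _ => ?_
        rw [Algebra.smul_def]
        rfl) i
    exact Subtype.ext h1) ζ A X hA hX
  refine final_boundX c hN hA.card_pos (fun h0 => ?_)
    (le_trans (Nat.mul_le_mul_right _ (Finset.card_le_card ?_)) h1)
  · rw [Finset.card_eq_zero] at h0 ⊢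
    subst h0
    rw [Finset.filter_eq_empty_iff]
    intro a ha
    have := Fintype.mem_piFinset.1 ha 0
    simp at this
  · intro a ha
    have ha := Finset.mem_filter.1 ha
    refine (@Finset.mem_filter _ _ (_) _ _).2 ⟨ha.1, fun hI => ha.2 ?_⟩
    refine GoodT.reindex (T' := ap (fun i : Fin 0 => i.elim0) t) (fun o => Fin.natAdd 0 o)
      (fun o => ?_) (hI _)
    unfold ap
    rw [Fin.append_right]

open Classical in
/-- **Logarithms of divisors.** -/
theorem divisorsX (g n L : ℕ) : ∃ c : ℕ, ∀ M : ℕ, 2 ≤ M → ∀ (t : Fin g → ℂ)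
    (D : Finset ℕ), D ⊆ M.divisors →
    ((Fintype.piFinset fun _ : Fin (n + 1) => D).filter
      (fun d : Fin (n + 1) → ℕ => ¬ GoodT QB t L (fun j => (Real.log (d j) : ℂ)))).card ≤
      (c * Nat.log 2 M) ^ c * D.card ^ n := by
  obtain ⟨c, hc⟩ := logsX g n L
  refine ⟨2 * c + 1, fun M hM t D hD => ?_⟩
  have hM0 : M ≠ 0 := by omega
  set N := M.primeFactors.card with hN
  set ℓ := Nat.log 2 M with hℓ
  have hN1 : 1 ≤ N := by
    rw [hN, Nat.one_le_iff_ne_zero, Ne, Finset.card_eq_zero, Nat.primeFactors_eq_empty]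
    omega
  have hNℓ : N ≤ ℓ := by
    apply Nat.le_log_of_pow_le (by norm_num)
    calc 2 ^ N = ∏ p ∈ M.primeFactors, 2 := by rw [Finset.prod_const]
      _ ≤ ∏ p ∈ M.primeFactors, p := Finset.prod_le_prod' fun p hp =>
          (Nat.prime_of_mem_primeFactors hp).two_le
      _ ≤ M := Nat.le_of_dvd (by omega) (Nat.prod_primeFactors_dvd M)
  let e : Fin N ≃ M.primeFactors := M.primeFactors.equivFin.symm
  let p : Fin N → ℕ := fun i => (e i : ℕ)
  have hp : ∀ i, (p i).Prime := fun i => Nat.prime_of_mem_primeFactors (e i).2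
  have hpinj : Function.Injective p := Subtype.val_injective.comp e.injective
  let lam : Fin (n + 1) → Fin N → ℂ := fun _ i => (Real.log (p i) : ℂ)
  have halg : ∀ j i, IsAlgebraic ℚ (Complex.exp (lam j i)) := by
    intro j i
    have h1 : Complex.exp (lam j i) = ((p i : ℕ) : ℂ) := by
      show Complex.exp ((Real.log (p i) : ℝ) : ℂ) = _
      rw [← Complex.ofReal_exp, Real.exp_log (by exact_mod_cast (hp i).pos)]
      simp
    rw [h1]
    exact isAlgebraic_natCast _
  have hlam : ∀ j, LinearIndependent ℚ (lam j) := fun j =>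
    Pool.Agent.H297R2.linearIndependent_log_prime p hp hpinj
  -- the vectors of exponents
  let φ : ℕ → Fin N → QB := fun d i => ((d.factorization (p i) : ℕ) : QB)
  let A : Finset QB := (Finset.range (ℓ + 1)).image (fun k : ℕ => (k : QB))
  have hAc : A.card ≤ ℓ + 1 := by
    refine Finset.card_image_le.trans ?_
    rw [Finset.card_range]
  have hA : A.Nonempty := ⟨_, Finset.mem_image_of_mem _ (Finset.mem_range.2 (Nat.succ_pos ℓ))⟩
  have hdvd : ∀ d ∈ D, d ∣ M ∧ d ≠ 0 := by
    intro d hd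
    have h1 := Nat.dvd_of_mem_divisors (hD hd)
    exact ⟨h1, fun h0 => hM0 (Nat.eq_zero_of_zero_dvd (h0 ▸ h1))⟩
  have hsupp : ∀ d ∈ D, ∀ q, q ∉ M.primeFactors → d.factorization q = 0 := by
    intro d hd q hq
    by_contra h0
    apply hq
    have h1 : q ∈ d.primeFactors := by
      rw [← Nat.support_factorization]
      exact Finsupp.mem_support_iff.2 h0
    exact Nat.primeFactors_mono (hdvd d hd).1 hM0 h1
  have hfac : ∀ d ∈ D, ∀ q, d.factorization q ≤ ℓ := by
    intro d hd q
    have h1 : d.factorization q ≤ M.factorization q :=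
      (Nat.factorization_le_iff_dvd (hdvd d hd).2 hM0).2 (hdvd d hd).1 q
    refine h1.trans ?_
    by_cases hq : q.Prime
    · apply Nat.le_log_of_pow_le (by norm_num)
      calc 2 ^ M.factorization q ≤ q ^ M.factorization q := Nat.pow_le_pow_left hq.two_le _
        _ ≤ M := Nat.le_of_dvd (by omega) (Nat.ordProj_dvd M q)
    · rw [Nat.factorization_eq_zero_of_not_prime M hq]
      exact Nat.zero_le _
  have hφinj : Set.InjOn φ D := by
    intro d hd d' hd' h
    apply Nat.eq_of_factorization_eq (hdvd d hd).2 (hdvd d' hd').2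
    intro q
    by_cases hq : q ∈ M.primeFactors
    · have h1 := congrFun h (e.symm ⟨q, hq⟩)
      have h2 : p (e.symm ⟨q, hq⟩) = q := by
        show ((e (e.symm ⟨q, hq⟩) : M.primeFactors) : ℕ) = q
        rw [Equiv.apply_symm_apply]
      have h3 : ((d.factorization (p (e.symm ⟨q, hq⟩)) : ℕ) : QB) =
          ((d'.factorization (p (e.symm ⟨q, hq⟩)) : ℕ) : QB) := h1
      rw [h2] at h3
      exact_mod_cast h3
    · rw [hsupp d hd q hq, hsupp d' hd' q hq]
  have hlog : ∀ d ∈ D, (0 : ℂ) + ∑ i : Fin N, (φ d i : ℂ) * (Real.log (p i) : ℂ) =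
      (Real.log d : ℂ) := by
    intro d hd
    rw [zero_add, Real.log_nat_eq_sum_factorization, Finsupp.sum]
    have h1 : ∑ q ∈ d.factorization.support, (d.factorization q : ℝ) * Real.log q =
        ∑ q ∈ M.primeFactors, (d.factorization q : ℝ) * Real.log q := by
      apply Finset.sum_subset
      · rw [Nat.support_factorization]
        exact Nat.primeFactors_mono (hdvd d hd).1 hM0
      · intro q _ hq
        rw [Finsupp.notMem_support_iff.1 hq]
        simp
    rw [h1, Complex.ofReal_sum, ← Finset.sum_coe_sort M.primeFactors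
      (fun q => (((d.factorization q : ℝ) * Real.log q : ℝ) : ℂ)), ← Equiv.sum_comp e]
    refine Finset.sum_congr rfl fun i _ => ?_
    rw [Complex.ofReal_mul]
    congr 1
  have h1 := hc N hN1 lam halg hlam t (fun _ => 0) A (D.image φ) hA (by
    intro v hv i
    obtain ⟨d, hd, rfl⟩ := Finset.mem_image.1 hv
    exact Finset.mem_image_of_mem _ (Finset.mem_range.2 (Nat.lt_succ_of_le (hfac d hd _))))
  have h2 : ((Fintype.piFinset fun _ : Fin (n + 1) => D).filter
      (fun d : Fin (n + 1) → ℕ => ¬ GoodT QB t L (fun j => (Real.log (d j) : ℂ)))).card ≤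
      ((Fintype.piFinset fun _ : Fin (n + 1) => D.image φ).filter
      (fun a : Fin (n + 1) → Fin N → QB => ¬ GoodT QB t L
        (fun j => (0 : ℂ) + ∑ i : Fin N, (a j i : ℂ) * lam j i))).card := by
    refine Finset.card_le_card_of_injOn (fun d j => φ (d j)) ?_ ?_
    · intro d hd
      rw [Finset.mem_coe, Finset.mem_filter] at hd ⊢
      have h3 := Fintype.mem_piFinset.1 hd.1
      refine ⟨Fintype.mem_piFinset.2 fun j => Finset.mem_image_of_mem _ (h3 j), fun h4 => hd.2 ?_⟩
      have h5 : (fun j => (0 : ℂ) + ∑ i : Fin N, (φ (d j) i : ℂ) * lam j i) =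
          (fun j => (Real.log (d j) : ℂ)) := funext fun j => hlog (d j) (h3 j)
      rw [h5] at h4
      exact h4
    · intro d hd d' hd' h
      rw [Finset.mem_coe, Finset.mem_filter] at hd hd'
      funext j
      exact hφinj (Fintype.mem_piFinset.1 hd.1 j) (Fintype.mem_piFinset.1 hd'.1 j) (congrFun h j)
  refine h2.trans (h1.trans ?_)
  rw [Finset.card_image_of_injOn hφinj]
  refine Nat.mul_le_mul_right _ ?_
  have hℓ1 : 1 ≤ ℓ := hN1.trans hNℓ
  calc (c * N * A.card) ^ c ≤ (((2 * c + 1) * ℓ) ^ 2) ^ c := by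
        refine Nat.pow_le_pow_left ?_ c
        calc c * N * A.card ≤ c * ℓ * (2 * ℓ) := by
              gcongr
              omega
          _ = (2 * c) * (ℓ * ℓ) := by ring
          _ ≤ ((2 * c + 1) * (2 * c + 1)) * (ℓ * ℓ) :=
              Nat.mul_le_mul_right _ (by nlinarith [Nat.zero_le (c * c)])
          _ = _ := by ring
    _ = ((2 * c + 1) * ℓ) ^ (2 * c) := by rw [← pow_mul]
    _ ≤ ((2 * c + 1) * ℓ) ^ (2 * c + 1) :=
        Nat.pow_le_pow_right (Nat.mul_pos (by omega) hℓ1) (by omega)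

end Pool.Agent.Zk44.GP
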